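import Pool.Agent.V8H84.BG.Strings
import Pool.Agent.V8H84.BG.Dense

set_option autoImplicit false

/-!
# Many `2 n` are a prime plus a number `q` for which `p_{q + 2} + h` is prime, `h` bounded

`p_k` is the `k`-th prime. The problem asks, for every `n > 2`, for a prime `q` such that `2 n - q` and
`p_{q + 2} + 2` are prime. Here `2 n - q` IS prime, `q` is in a given class prime to a given `u` (so it has
no prime factor below a given bound), and the twin prime `p_{q + 2} + 2` is replaced by the next prime (or the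
next `m` primes) after `p_{q + 2}`, at a bounded distance.
-/

namespace Pool.Agent.Results.MP_0ec542_nt.BoundedGaps

open Finset Filter

/-- The `k`-th prime: `p 1 = 2`, `p 2 = 3`, and so on. -/
noncomputable def p (k : ℕ) : ℕ := Nat.nth Nat.Prime (k - 1)

/-- `q < 2 n`, `q ≤ (log x) ^ 2`, `q ≡ b` modulo `u`, and `2 n - q` is prime -/
def Good (u b x n q : ℕ) : Prop :=
  q < 2 * n ∧ (q : ℝ) ≤ Real.log x ^ 2 ∧ q ≡ b [MOD u] ∧ (2 * n - q).Prime

open Classical in
/-- The `n` with `2 < n ≤ x` for which there is a `q` with `Good u b x n q` such that the `m + 1` consecutive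
primes `p_{q + 2}, ..., p_{q + 2 + m}` are all in the class `e` modulo `d` and in an interval of length `H`. -/
noncomputable def Rep (u b d e m H x : ℕ) : Finset ℕ :=
  (Icc 3 x).filter (fun n => ∃ q : ℕ, Good u b x n q ∧ p (q + 2 + m) ≤ p (q + 2) + H ∧
    ∀ j ≤ m, p (q + 2 + j) ≡ e [MOD d])

open Classical in
/-- The `n` with `2 < n ≤ x` for which there is a `q` with `Good u b x n q` such that the `m + 1` consecutive
primes `p_{q + 2}, ..., p_{q + 2 + m}` are all in the class `e` modulo `d` and are the numbers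
`p_{q + 2} + g 0, ..., p_{q + 2} + g m` (so `g 0 = 0` if there is such an `n`). -/
noncomputable def RepPat (u b d e m : ℕ) (g : Fin (m + 1) → ℕ) (x : ℕ) : Finset ℕ :=
  (Icc 3 x).filter (fun n => ∃ q : ℕ, Good u b x n q ∧
    ∀ j : Fin (m + 1), p (q + 2 + j) = p (q + 2) + g j ∧ p (q + 2 + j) ≡ e [MOD d])

/-- the pattern version, at the scale `x` -/
lemma rep_of_mem (u b d e l m : ℕ) (g : ℕ → ℕ) (C : ℕ) (hg : ∀ j ≤ l * u + m, g j ≤ C) (x n a i q : ℕ)
    (hn : n ∈ Icc 3 x) (ha : a ∈ Pool.Agent.V8H84.BG.G u b d e (l * u + m) g) (hi : i ≤ l)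
    (hax : ((a + i * u : ℕ) : ℝ) ≤ Real.log x ^ 2) (hq : q.Prime) (hqa : (a + i * u) + q = 2 * n) :
    n ∈ Rep u b d e m C x := by
  classical
  obtain ⟨ha1, ha2, ha3⟩ := ha
  have hiu : i * u ≤ l * u := Nat.mul_le_mul_right u hi
  have hmono : ∀ s t : ℕ, s ≤ t → Nat.nth Nat.Prime s ≤ Nat.nth Nat.Prime t := fun s t h =>
    Nat.nth_monotone Nat.infinite_setOfPred_prime h
  unfold Rep
  rw [mem_filter]
  refine ⟨hn, a + i * u, ⟨?_, hax, ?_, ?_⟩, ?_, fun j hj => ?_⟩
  · have := hq.pos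
    omega
  · unfold Nat.ModEq
    rw [Nat.add_mul_mod_self_right]
    exact ha2
  · have : 2 * n - (a + i * u) = q := by omega
    rw [this]
    exact hq
  · unfold p
    have h1 := (ha3 (i * u + m) (by omega)).1
    have h2 := hg (i * u + m) (by omega)
    have h3 := hmono (a + 1) (a + i * u + 2 - 1) (by omega)
    have e1 : a + i * u + 2 + m - 1 = a + 1 + (i * u + m) := by omega
    rw [e1, h1]
    omega
  · unfold p
    have e1 : a + i * u + 2 + j - 1 = a + 1 + (i * u + j) := by omega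
    rw [e1]
    exact (ha3 (i * u + j) (by omega)).2

lemma choose_l (A K : ℝ) (u : ℕ) (hu : 1 ≤ u) (hA : 0 < A) (hK : 0 ≤ K) : ∃ l : ℕ,
    K ≤ ((l : ℝ) + 1) / (A * Real.log ((2 * l + 3) * u : ℕ)) := by
  have h1 := (Real.isLittleO_log_id_atTop).bound (by positivity : (0 : ℝ) < 1 / (8 * (K * A + 1)))
  have h2 : Tendsto (fun l : ℕ => 2 * (l : ℝ) + 3) atTop atTop :=
    tendsto_atTop_add_const_right _ _ (tendsto_natCast_atTop_atTop.const_mul_atTop (by norm_num))
  have h3 := h2.eventually h1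
  obtain ⟨l, h4, h5⟩ := (h3.and (tendsto_natCast_atTop_atTop.eventually_ge_atTop
    (4 * (K * A) * Real.log u + 3 : ℝ))).exists
  refine ⟨l, ?_⟩
  have hl0 : (0 : ℝ) ≤ l := Nat.cast_nonneg l
  have hu0 : (0 : ℝ) < u := by exact_mod_cast hu
  have hlogu : 0 ≤ Real.log u := Real.log_natCast_nonneg u
  have hlog : 0 < Real.log (2 * (l : ℝ) + 3) := Real.log_pos (by linarith)
  rw [Real.norm_of_nonneg hlog.le] at h4
  simp only [id] at h4
  rw [Real.norm_of_nonneg (by linarith)] at h4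
  have e1 : Real.log (((2 * l + 3) * u : ℕ) : ℝ) = Real.log (2 * (l : ℝ) + 3) + Real.log u := by
    push_cast
    rw [Real.log_mul (by linarith) hu0.ne']
  have hKA : 0 ≤ K * A := by positivity
  have h6 : (K * A) * Real.log (2 * (l : ℝ) + 3) ≤ (2 * l + 3) / 8 := by
    calc (K * A) * Real.log (2 * (l : ℝ) + 3) ≤ (K * A + 1) * Real.log (2 * (l : ℝ) + 3) := by
          apply mul_le_mul_of_nonneg_right _ hlog.le
          linarith
      _ ≤ (K * A + 1) * (1 / (8 * (K * A + 1)) * (2 * l + 3)) := by gcongr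
      _ = (2 * l + 3) / 8 := by field_simp
  rw [e1, le_div_iff₀ (by positivity)]
  have h7 : K * (A * (Real.log (2 * (l : ℝ) + 3) + Real.log u)) =
      (K * A) * Real.log (2 * (l : ℝ) + 3) + (K * A) * Real.log u := by ring
  rw [h7]
  linarith

lemma odd_of (u b d e k l : ℕ) (g : ℕ → ℕ) (hu2 : u % 2 = 0) (hb : b % 2 = 1) :
    ∀ a ∈ Pool.Agent.V8H84.BG.G u b d e k g, ∀ i ≤ l, 3 ≤ a + i * u ∧ (a + i * u) % 2 = 1 := by
  rintro a ⟨h1, h2, -⟩ i _
  have h3 : a ≡ b [MOD 2] := h2.of_dvd (Nat.dvd_of_mod_eq_zero hu2)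
  have h4 : a % 2 = 1 := by
    unfold Nat.ModEq at h3
    omega
  have h5 : (i * u) % 2 = 0 := by
    rw [Nat.mul_mod, hu2]
    simp
  constructor
  · omega
  · omega

lemma log4_nonneg : ∀ᶠ x : ℕ in atTop,
    0 ≤ (x : ℝ) / Real.log (Real.log (Real.log (Real.log x))) := by
  have t1 : Tendsto (fun x : ℕ => Real.log (Real.log (Real.log (Real.log (x : ℝ))))) atTop atTop :=
    Real.tendsto_log_atTop.comp (Real.tendsto_log_atTop.comp (Real.tendsto_log_atTop.comp
      (Real.tendsto_log_atTop.comp tendsto_natCast_atTop_atTop)))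
  filter_upwards [t1.eventually_ge_atTop 0] with x hx
  exact div_nonneg (Nat.cast_nonneg _) hx

/-- the patterns at all scales, and the set at each scale -/
lemma scales (u b d e k s : ℕ) (hu : 1 ≤ u) (hd : 0 < d) (he : Nat.Coprime e d) (hs : s ≤ k) :
    ∃ (C B : ℕ) (g : ℕ → ℕ → ℕ), (∀ y, ∀ j ≤ k, g y j ≤ C) ∧ ∃ y0 : ℕ, ∀ y : ℕ, y0 ≤ y →
      ∃ S : Finset ℕ, S ⊆ Icc 1 y ∧
        (∀ a ∈ S, a ∈ Pool.Agent.V8H84.BG.G u b d e k (g y) ∧ a + s ≤ y) ∧
        (y : ℝ) ≤ S.card * Real.log y ^ B := by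
  obtain ⟨C, B, y0, h⟩ := Pool.Agent.V8H84.BG.dense u b d e k s hu hd he hs
  have h1 : ∀ y : ℕ, ∃ g : ℕ → ℕ, (∀ j ≤ k, g j ≤ C) ∧ (y0 ≤ y → ∃ S : Finset ℕ, S ⊆ Icc 1 y ∧
        (∀ a ∈ S, a ∈ Pool.Agent.V8H84.BG.G u b d e k g ∧ a + s ≤ y) ∧
        (y : ℝ) ≤ S.card * Real.log y ^ B) := by
    intro y
    by_cases hy : y0 ≤ y
    · obtain ⟨g, h2, h3⟩ := h y hy
      exact ⟨g, h2, fun _ => h3⟩
    · exact ⟨fun _ => 0, fun _ _ => Nat.zero_le _, fun h2 => absurd h2 hy⟩
  choose g hg using h1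
  exact ⟨C, B, g, fun y => (hg y).1, y0, fun y hy => (hg y).2 hy⟩

/-- There is an absolute constant `A` such that for all `u` even, `b` odd, `e` prime to `d` and all `m`:

* for every `K` there is an `H` such that for all large `x` at least `K x / log log log log x` of the `n`,
  `2 < n ≤ x`, have a `q < 2 n`, `q ≤ (log x) ^ 2`, `q ≡ b` modulo `u`, such that `2 n - q` is prime and
  `p_{q + 2}, ..., p_{q + 2 + m}` are in the class `e` modulo `d` and in an interval of length `H`;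
* there is an `H` such that for all large `x` there is ONE pattern `g ≤ H` with `p_{q + 2 + j} =
  p_{q + 2} + g j` for at least `x / (A log (3 u) log log log log x)` of the `n`;
* there is one pattern `g` with which this holds for infinitely many `x`. -/
theorem result : ∃ A : ℝ, 0 < A ∧ ∀ u b d e m : ℕ, 1 ≤ u → u % 2 = 0 → b % 2 = 1 → 0 < d →
    Nat.Coprime e d →
    (∀ K : ℕ, ∃ H : ℕ, ∀ᶠ x : ℕ in atTop,
      (K : ℝ) * (x / Real.log (Real.log (Real.log (Real.log x)))) ≤ ((Rep u b d e m H x).card : ℝ)) ∧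
    (∃ H : ℕ, ∀ᶠ x : ℕ in atTop, ∃ g : Fin (m + 1) → ℕ, (∀ j, g j ≤ H) ∧
      1 / (A * Real.log (3 * u)) * (x / Real.log (Real.log (Real.log (Real.log x)))) ≤
        ((RepPat u b d e m g x).card : ℝ)) ∧
    ∃ g : Fin (m + 1) → ℕ, ∃ᶠ x : ℕ in atTop,
      1 / (A * Real.log (3 * u)) * (x / Real.log (Real.log (Real.log (Real.log x)))) ≤
        ((RepPat u b d e m g x).card : ℝ) := by
  classical
  obtain ⟨A, hA, hst⟩ := Pool.Agent.V8H84.BG.strings_var
  refine ⟨A, hA, fun u b d e m hu hu2 hb hd he => ?_⟩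
  have part2 : ∃ H : ℕ, ∀ᶠ x : ℕ in atTop, ∃ g : Fin (m + 1) → ℕ, (∀ j, g j ≤ H) ∧
      1 / (A * Real.log (3 * u)) * (x / Real.log (Real.log (Real.log (Real.log x)))) ≤
        ((RepPat u b d e m g x).card : ℝ) := by
    obtain ⟨C, B, g, hg, hS⟩ := scales u b d e m 0 hu hd he (Nat.zero_le _)
    obtain ⟨x0, hx0⟩ := hst u 0 B (fun y => Pool.Agent.V8H84.BG.G u b d e m (g y)) hu
      (fun y => odd_of u b d e m 0 (g y) hu2 hb) (by simpa using hS)
    refine ⟨C, ?_⟩
    filter_upwards [eventually_ge_atTop x0, log4_nonneg] with x hx hx4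
    obtain ⟨T, hT1, hT2, hT3⟩ := hx0 x hx
    refine ⟨fun j => g ⌊Real.log x ^ 2⌋₊ j, fun j => hg _ _ (by omega), ?_⟩
    have e0 : ((0 : ℕ) : ℝ) + 1 = 1 := by norm_num
    have e1 : (((2 * 0 + 3) * u : ℕ) : ℝ) = 3 * u := by push_cast; ring
    rw [e0, e1] at hT3
    refine hT3.trans ?_
    apply Nat.cast_le.2
    apply card_le_card
    intro n hn
    obtain ⟨a, ⟨ha1, ha2, ha3⟩, i, hi, hax, q, hq, hqa⟩ := hT2 n hn
    obtain rfl : i = 0 := by omega
    rw [zero_mul, add_zero] at hax hqa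
    unfold RepPat
    rw [mem_filter]
    refine ⟨hT1 hn, a, ⟨?_, hax, ha2, ?_⟩, fun j => ?_⟩
    · have := hq.pos
      omega
    · have : 2 * n - a = q := by omega
      rw [this]
      exact hq
    · unfold p
      have e2 : a + 2 + (j : ℕ) - 1 = a + 1 + j := by omega
      have e3 : a + 2 - 1 = a + 1 := by omega
      rw [e2, e3]
      exact ha3 j (by omega)
  refine ⟨fun K => ?_, part2, ?_⟩
  · obtain ⟨l, hl⟩ := choose_l A K u hu hA (Nat.cast_nonneg _)
    obtain ⟨C, B, g, hg, hS⟩ := scales u b d e (l * u + m) (l * u) hu hd he (Nat.le_add_right _ _)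
    obtain ⟨x0, hx0⟩ := hst u l B (fun y => Pool.Agent.V8H84.BG.G u b d e (l * u + m) (g y)) hu
      (fun y => odd_of u b d e (l * u + m) l (g y) hu2 hb) hS
    refine ⟨C, ?_⟩
    filter_upwards [eventually_ge_atTop x0, log4_nonneg] with x hx hx4
    obtain ⟨T, hT1, hT2, hT3⟩ := hx0 x hx
    refine (mul_le_mul_of_nonneg_right hl hx4).trans (hT3.trans ?_)
    apply Nat.cast_le.2
    apply card_le_card
    intro n hn
    obtain ⟨a, ha, i, hi, hax, q, hq, hqa⟩ := hT2 n hn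
    exact rep_of_mem u b d e l m _ C (hg _) x n a i q (hT1 hn) ha hi hax hq hqa
  · obtain ⟨H, hH⟩ := part2
    by_contra hcon
    push Not at hcon
    have hfin : {g : Fin (m + 1) → ℕ | ∀ j, g j ∈ Set.Iic H}.Finite :=
      Set.Finite.pi' (fun _ => Set.finite_Iic H)
    have h1 : ∀ᶠ x : ℕ in atTop, ∀ g ∈ {g : Fin (m + 1) → ℕ | ∀ j, g j ∈ Set.Iic H},
        ¬ (1 / (A * Real.log (3 * u)) * (x / Real.log (Real.log (Real.log (Real.log x)))) ≤
        ((RepPat u b d e m g x).card : ℝ)) := by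
      rw [eventually_all_finite hfin]
      intro g _
      filter_upwards [hcon g] with x hx
      exact not_le.2 hx
    obtain ⟨x, ⟨g, hg1, hg2⟩, h3⟩ := (hH.and h1).exists
    exact h3 g (fun j => hg1 j) hg2

end Pool.Agent.Results.MP_0ec542_nt.BoundedGaps
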