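import Mathlib
import Pool.Agent.V8H10.GS.Alm

/-!
# Goldbach pairs `q, 2 n - q` with `p_{q+2} + h` prime, for many shifts `h`

The conditions of the question are that `q`, `2 n - q` and `p_{q+2} + 2` are primes. Here the `2` is replaced
by an even number `h`: for every `n` with at least `2 n / (log 2 n) ^ B` representations `2 n = q + q'` as a
sum of two primes (these are all `n ≤ N` except at most `N / (log N) ^ A`), at least `c H / log log log 2 n` of
the numbers `h` of each interval `(h₀, h₀ + H]` of length `H ≥ (2 n) ^ (1/3) (log 2 n) ^ C` are such that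
`p_{q+2} + h` is prime for at least the proportion `c / log 2 n` of the primes `q` with `2 n - q` prime. For
every large `n` the same holds with the primes `q` such that `2 n - q` is an almost prime. Both are special
cases of a theorem for arbitrary sets `Q` of indices with at least `x / (log x) ^ B` elements up to `x`.

Proof. First moment over `h`: all but few of the windows `(p_{q+2} + h₀, p_{q+2} + h₀ + H]` contain the right
number of primes (distribution of the primes in almost all short intervals, the exceptional set is smaller than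
`Q`). Second moment: upper bound sieve for the pairs `p_{q+2} + h`, `p_{q'+2} + h`, and high moments of the
singular factor of the differences `p_{q+2} - p_{q'+2}`; its average over an arbitrary set of
`x / (log x) ^ B` numbers is `O(log log log x)`.
-/

set_option autoImplicit false

open Finset

namespace Pool.Agent.Results.MP_0ec542_nt.ManyShifts

/-- `p_k`, the `k`-th prime (`p_1 = 2`) -/
noncomputable def p (k : ℕ) : ℕ := Nat.nth Nat.Prime (k - 1)

/-- the primes `q < 2 n` for which `2 n - q` is prime -/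
def goldbach (n : ℕ) : Finset ℕ := (range (2 * n)).filter fun q => q.Prime ∧ (2 * n - q).Prime

open Classical in
/-- the primes `q < 2 n` for which `2 n - q` has at most `r` prime factors (with multiplicity), all of them
at least `n ^ δ` -/
noncomputable def almost (r : ℕ) (δ : ℝ) (n : ℕ) : Finset ℕ :=
  (range (2 * n)).filter fun q => q.Prime ∧ (2 * n - q).primeFactorsList.length ≤ r ∧
    ∀ l : ℕ, l.Prime → l ∣ 2 * n - q → (n : ℝ) ^ δ ≤ l

/-- the number of the `q ∈ Q` for which `p_{q+2} + h` is prime -/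
noncomputable def count (Q : Finset ℕ) (h : ℕ) : ℕ := #(Q.filter fun q => (p (q + 2) + h).Prime)

open Classical in
/-- the even `h ∈ (h₀, h₀ + H]` for which `p_{q+2} + h` is prime for at least `c |Q| / log x` of the
`q ∈ Q` -/
noncomputable def goodShifts (c : ℝ) (x : ℕ) (Q : Finset ℕ) (h₀ H : ℕ) : Finset ℕ :=
  (Ioc h₀ (h₀ + H)).filter fun h => Even h ∧ c * #Q / Real.log x ≤ count Q h

/-- for all `h₀ ≤ x` and `x ^ (1/3) (log x) ^ C ≤ H ≤ x` there are at least `c H / log log log x` such `h` -/
def Holds (c : ℝ) (C x : ℕ) (Q : Finset ℕ) : Prop :=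
  ∀ h₀ H : ℕ, h₀ ≤ x → (x : ℝ) ^ (1 / 3 : ℝ) * Real.log x ^ C ≤ H → H ≤ x →
    c * H / Real.log (Real.log (Real.log x)) ≤ #(goodShifts c x Q h₀ H)

open Classical in
/-- There is a `c > 0` such that
(1) for all `B` there is `C` such that for all large `x` and every `Q ⊆ {1, ..., x}` with
`|Q| ≥ x / (log x) ^ B`, `Holds c C x Q`;
(2) for some `r, B, C` and `δ > 0`, for EVERY large `n` the set `Q` of the primes `q < 2 n` for which `2 n - q`
has at most `r` prime factors, all at least `n ^ δ`, has at least `2 n / (log 2 n) ^ B` elements and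
satisfies `Holds c C (2 n) Q`;
(3) for some `C`, for all `A` and large `N`, all but at most `N / (log N) ^ A` of the `n ≤ N` are such that
the set `Q` of the primes `q < 2 n` with `2 n - q` prime has at least `n / (log 2 n) ^ 2` elements and
satisfies `Holds c C (2 n) Q`. -/
theorem result : ∃ c : ℝ, 0 < c ∧
    (∀ B : ℕ, ∃ C x₀ : ℕ, ∀ x : ℕ, x₀ ≤ x → ∀ Q : Finset ℕ, Q ⊆ Icc 1 x →
      (x : ℝ) ≤ #Q * Real.log x ^ B → Holds c C x Q) ∧
    (∃ (r B C : ℕ) (δ : ℝ), 0 < δ ∧ ∃ n₀ : ℕ, ∀ n : ℕ, n₀ ≤ n →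
      ((2 * n : ℕ) : ℝ) ≤ #(almost r δ n) * Real.log ((2 * n : ℕ) : ℝ) ^ B ∧ Holds c C (2 * n) (almost r δ n)) ∧
    (∃ C : ℕ, ∀ A : ℕ, ∃ N₀ : ℕ, ∀ N : ℕ, N₀ ≤ N →
      (#((Icc 1 N).filter fun n : ℕ => ¬ ((n : ℝ) ≤ #(goldbach n) * Real.log ((2 * n : ℕ) : ℝ) ^ 2 ∧
        Holds c C (2 * n) (goldbach n))) : ℝ) ≤ N / Real.log N ^ A) := by
  obtain ⟨c, hc, h1, h3⟩ := Pool.Agent.V8H10.GS.main_gold
  refine ⟨c, hc, h1, ?_, h3⟩
  obtain ⟨r, B, δ, hδ, n₀, h⟩ := Pool.Agent.V8H10.GS.alm_many
  obtain ⟨C, x₀, h1⟩ := h1 B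
  refine ⟨r, B, C, δ, hδ, max n₀ x₀, fun n hn => ⟨h n (le_trans (le_max_left _ _) hn), ?_⟩⟩
  refine h1 (2 * n) (le_trans (le_trans (le_max_right _ _) hn) (by omega)) _ ?_
    (h n (le_trans (le_max_left _ _) hn))
  intro q hq
  unfold almost at hq
  rw [mem_filter, mem_range] at hq
  rw [mem_Icc]
  exact ⟨hq.2.1.one_lt.le, by omega⟩

end Pool.Agent.Results.MP_0ec542_nt.ManyShifts
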