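import Pool.Agent.V8H34.PS.Index

set_option autoImplicit false

/-!
# For every large `n`: arithmetic progressions of strings of primes `p_{q + 2}` with almost prime
`p_{q + 2} + 2`, where `q` and `2 n - q` have no small prime factors
-/

namespace Pool.Agent.Results.MP_0ec542_nt.ProgressionsOfIndices

open Finset Filter

/-- The `k`-th prime: `p 1 = 2`, `p 2 = 3`, and so on. -/
noncomputable def p (k : ℕ) : ℕ := Nat.nth Nat.Prime (k - 1)

/-- `x + 2 = 3 v`, where `v` has at most `r` prime factors, counted with multiplicity, all of them at least `w`. -/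
def AlmostPrimeShift (r : ℕ) (w : ℝ) (x : ℕ) : Prop :=
  ∃ v : ℕ, x + 2 = 3 * v ∧ v.primeFactorsList.length ≤ r ∧ ∀ t : ℕ, t.Prime → t ∣ v → w ≤ t

/-- the product of the primes which divide `u` but not `n` -/
def P (u n : ℕ) : ℕ := ∏ r ∈ u.primeFactors.filter (fun r => ¬ r ∣ n), r

theorem dvd_P {u n r : ℕ} (hr : r.Prime) (h : r ∣ P u n) : ¬ r ∣ n := by
  unfold P at h
  rw [Prime.dvd_finsetProd_iff hr.prime] at h
  obtain ⟨s, hs, hrs⟩ := h
  rw [mem_filter] at hs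
  have hsp := Nat.prime_of_mem_primeFactors hs.1
  rw [(Nat.prime_dvd_prime_iff_eq hr hsp).1 hrs]
  exact hs.2

theorem P_dvd {u n r : ℕ} (hu : u ≠ 0) (hr : r.Prime) (hru : r ∣ u) (hrn : ¬ r ∣ n) : r ∣ P u n := by
  unfold P
  apply dvd_prod_of_mem (fun r => r)
  rw [mem_filter]
  exact ⟨Nat.mem_primeFactors.2 ⟨hr, hru, hu⟩, hrn⟩

/-- `n + P` and `n - P` are prime to `u` -/
theorem ndvd {u n r : ℕ} (hu : u ≠ 0) (hr : r.Prime) (hru : r ∣ u) :
    ¬ (r : ℤ) ∣ (n : ℤ) + P u n ∧ ¬ (r : ℤ) ∣ (n : ℤ) - P u n := by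
  by_cases hrn : r ∣ n
  · have h1 : (r : ℤ) ∣ (n : ℤ) := by exact_mod_cast hrn
    have h2 : ¬ (r : ℤ) ∣ (P u n : ℤ) := by
      intro h
      exact dvd_P hr (by exact_mod_cast h) hrn
    constructor
    · intro h
      exact h2 ((dvd_add_right h1).1 h)
    · intro h
      exact h2 ((dvd_sub_right h1).1 h)
  · have h1 : ¬ (r : ℤ) ∣ (n : ℤ) := by
      intro h
      exact hrn (by exact_mod_cast h)
    have h2 : (r : ℤ) ∣ (P u n : ℤ) := by exact_mod_cast P_dvd hu hr hru hrn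
    constructor
    · intro h
      exact h1 ((dvd_add_left h2).1 h)
    · intro h
      exact h1 ((dvd_sub_left h2).1 h)

theorem cop {u n m : ℕ} (hu : u ≠ 0) (hm : m < 2 * n) (h : m ≡ n + P u n [MOD u]) :
    m.Coprime u ∧ (2 * n - m).Coprime u := by
  have h0 : (u : ℤ) ∣ ((n + P u n : ℕ) : ℤ) - m := (Nat.modEq_iff_dvd.1 h)
  push_cast at h0
  constructor
  · rw [Nat.coprime_iff_gcd_eq_one]
    by_contra hcon
    obtain ⟨r, hr, hrd⟩ := Nat.exists_prime_and_dvd hcon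
    have h1 : r ∣ m := hrd.trans (Nat.gcd_dvd_left _ _)
    have h2 : r ∣ u := hrd.trans (Nat.gcd_dvd_right _ _)
    have h3 : (r : ℤ) ∣ (n : ℤ) + P u n - m := (by exact_mod_cast h2 : (r : ℤ) ∣ (u : ℤ)).trans h0
    have h4 : (r : ℤ) ∣ (m : ℤ) := by exact_mod_cast h1
    exact (ndvd hu hr h2).1 ((dvd_sub_left h4).1 h3)
  · rw [Nat.coprime_iff_gcd_eq_one]
    by_contra hcon
    obtain ⟨r, hr, hrd⟩ := Nat.exists_prime_and_dvd hcon
    have h1 : r ∣ 2 * n - m := hrd.trans (Nat.gcd_dvd_left _ _)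
    have h2 : r ∣ u := hrd.trans (Nat.gcd_dvd_right _ _)
    have h3 : (r : ℤ) ∣ (n : ℤ) + P u n - m := (by exact_mod_cast h2 : (r : ℤ) ∣ (u : ℤ)).trans h0
    have h4 : (r : ℤ) ∣ ((2 * n - m : ℕ) : ℤ) := by exact_mod_cast h1
    rw [Nat.cast_sub hm.le] at h4
    push_cast at h4
    have h5 := dvd_sub h4 h3
    have e : (2 * (n : ℤ) - m) - ((n : ℤ) + P u n - m) = n - P u n := by ring
    rw [e] at h5
    exact (ndvd hu hr h2).2 h5

theorem eval_f (n : ℤ) : (Polynomial.X + 2 : Polynomial ℤ).eval n = n + 2 := by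
  simp

theorem adm (t : ℕ) (ht : t.Prime) :
    ∃ n : ℤ, ¬ (t : ℤ) ∣ n * (Polynomial.X + 2 : Polynomial ℤ).eval n := by
  rcases eq_or_ne t 3 with h | h
  · refine ⟨2, fun h2 => ?_⟩
    rw [eval_f, h] at h2
    norm_num at h2
  · refine ⟨1, fun h2 => ?_⟩
    rw [eval_f] at h2
    have h3 : t ∣ 3 := by exact_mod_cast h2
    exact h ((Nat.prime_dvd_prime_iff_eq ht Nat.prime_three).1 h3)

theorem div9 {t : ℕ} (ht : t.Prime) (h : t ∣ 9) : t = 3 := by
  have h1 : t ∣ 3 ^ 2 := by norm_num; exact h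
  exact (Nat.prime_dvd_prime_iff_eq ht Nat.prime_three).1 (ht.dvd_of_dvd_pow h1)

/-- the theorem of the progressions of indices, for one class of the indices -/
theorem one (u m : ℕ) (hu : 1 ≤ u) :
    ∃ (C R : ℕ) (δ : ℝ), 0 < δ ∧ ∀ a l : ℕ, ∃ B : ℕ, ∀ᶠ n : ℕ in atTop,
      ∃ (h : ℕ → ℕ) (T : Finset ℕ), h 0 = 0 ∧ (∀ j < m, h j < h (j + 1)) ∧ h m ≤ C ∧
      (n : ℝ) / Real.log n ^ B ≤ T.card ∧ ∀ s ∈ T, ∃ D : ℕ, 1 ≤ D ∧ (D : ℝ) ≤ Real.log n ^ B ∧
        ∀ i < l, ∃ k : ℕ, ∀ j ≤ m, Nat.nth Nat.Prime (u * (k + j) + a) = s + i * D + h j ∧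
          n < s + i * D + h j ∧ s + i * D + h j ≤ 2 * n ∧
          AlmostPrimeShift R ((n : ℝ) ^ δ) (s + i * D + h j) := by
  obtain ⟨C, R, δ, hδ, hmain⟩ := Pool.Agent.V8H34.PS.index_prog2 (Polynomial.X + 2) (by
      intro h
      have := eval_f 0
      rw [h] at this
      norm_num at this) adm 9 1 3 (by norm_num) (by norm_num) (by
      rw [eval_f]
      norm_num) (by
      intro t ht h9 h1
      exact ht.one_lt.ne' (Nat.dvd_one.1 h1)) (by
      intro t ht h9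
      rw [div9 ht h9, eval_f]
      norm_num) (by
      intro z hz h0
      rw [eval_f] at h0
      refine ⟨3, Nat.prime_three, by norm_num, ?_⟩
      have : z = -2 := by linarith
      rw [this]
      norm_num) u m hu
  refine ⟨C, R, δ, hδ, fun a l => ?_⟩
  obtain ⟨B, hB⟩ := hmain a l
  refine ⟨B, ?_⟩
  filter_upwards [hB] with n hn
  obtain ⟨h, T, h0, h1, h2, h3, h4⟩ := hn
  refine ⟨h, T, h0, h1, h2, h3, fun s hs => ?_⟩
  obtain ⟨D, hD1, hD2, hD3⟩ := h4 s hs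
  refine ⟨D, hD1, hD2, fun i hi => ?_⟩
  obtain ⟨k, hk⟩ := hD3 i hi
  refine ⟨k, fun j hj => ?_⟩
  obtain ⟨g1, g2, g3, g4, v, g5, g6⟩ := hk j hj
  refine ⟨g1, g2, g3, ?_⟩
  rw [eval_f] at g5
  obtain ⟨g7, g8, g9⟩ := g6
  have hv0 : 0 ≤ v := by
    push_cast at g5
    omega
  obtain ⟨w, rfl⟩ := Int.eq_ofNat_of_zero_le hv0
  refine ⟨w, by exact_mod_cast g5, ?_, fun t ht htd => g9 t ht (by exact_mod_cast htd)⟩
  simpa using g8

/-- **Every large `n`: progressions of strings of indices.** For all `u ≥ 1` (for instance the product of all primes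
up to a given bound) and `m` there are `C`, `R` and `δ > 0`, and for every `l` there is `B`, such that for EVERY large
`n` there are `0 = h 0 < h 1 < ... < h m ≤ C` and at least `n / (log n) ^ B` numbers `s` which start a progression
`s, s + D, ..., s + (l - 1) D`, `1 ≤ D ≤ (log n) ^ B`, of the following kind: for each of its terms `x` there is
`q ≥ 1` such that for all `j ≤ m` and `q' = q + j u` we have `q' < 2 n`, `q'` and `2 n - q'` have no prime factor in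
common with `u`, `p_{q' + 2} = x + h j`, and `p_{q' + 2} + 2 = 3 v` with a number `v` which has at most `R` prime
factors, all of them at least `n ^ δ`. -/
theorem result (u m : ℕ) (hu : 1 ≤ u) :
    ∃ (C R : ℕ) (δ : ℝ), 0 < δ ∧ ∀ l : ℕ, ∃ B : ℕ, ∀ᶠ n : ℕ in atTop,
      ∃ (h : ℕ → ℕ) (T : Finset ℕ), h 0 = 0 ∧ (∀ j < m, h j < h (j + 1)) ∧ h m ≤ C ∧
      (n : ℝ) / Real.log n ^ B ≤ T.card ∧ ∀ s ∈ T, ∃ D : ℕ, 1 ≤ D ∧ (D : ℝ) ≤ Real.log n ^ B ∧
        ∀ i < l, ∃ q : ℕ, 1 ≤ q ∧ ∀ j ≤ m, q + j * u < 2 * n ∧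
          (q + j * u).Coprime u ∧ (2 * n - (q + j * u)).Coprime u ∧
          p (q + j * u + 2) = s + i * D + h j ∧
          AlmostPrimeShift R ((n : ℝ) ^ δ) (p (q + j * u + 2)) := by
  obtain ⟨C, R, δ, hδ, hmain⟩ := one u m hu
  refine ⟨C, R, δ, hδ, fun l => ?_⟩
  choose B hB using fun a => hmain a l
  refine ⟨(Finset.range u).sup B, ?_⟩
  have hall : ∀ᶠ n : ℕ in atTop, ∀ a ∈ Finset.range u, _ :=
    (Finset.eventually_all (Finset.range u)).2 fun a _ => hB a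
  have hlog : ∀ᶠ n : ℕ in atTop, (1 : ℝ) ≤ Real.log n :=
    (Real.tendsto_log_atTop.comp tendsto_natCast_atTop_atTop).eventually_ge_atTop _
  filter_upwards [hall, hlog, eventually_ge_atTop 3] with n hn hlog1 hn3
  obtain ⟨a, ha⟩ : ∃ a, a = (n + P u n + 1) % u := ⟨_, rfl⟩
  have hau : a < u := by
    rw [ha]
    exact Nat.mod_lt _ hu
  obtain ⟨h, T, h0, h1, h2, h3, h4⟩ := hn a (mem_range.2 hau)
  have hBle : B a ≤ (Finset.range u).sup B := Finset.le_sup (mem_range.2 hau)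
  have hpw : Real.log n ^ B a ≤ Real.log n ^ (Finset.range u).sup B := pow_le_pow_right₀ hlog1 hBle
  refine ⟨h, T, h0, h1, h2, le_trans ?_ h3, fun s hs => ?_⟩
  · apply div_le_div_of_nonneg_left (Nat.cast_nonneg n) (by positivity) hpw
  obtain ⟨D, hD1, hD2, hD3⟩ := h4 s hs
  refine ⟨D, hD1, hD2.trans hpw, fun i hi => ?_⟩
  obtain ⟨k, hk⟩ := hD3 i hi
  have hk2 : 2 ≤ u * k + a := by
    by_contra hcon
    push Not at hcon
    obtain ⟨g1, g2, -⟩ := hk 0 (by omega)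
    rw [add_zero] at g1
    have h5 : Nat.nth Nat.Prime (u * k + a) ≤ Nat.nth Nat.Prime 1 :=
      (Nat.nth_le_nth Nat.infinite_setOfPred_prime).2 (by omega)
    rw [Nat.nth_prime_one_eq_three] at h5
    omega
  refine ⟨u * k + a - 1, by omega, fun j hj => ?_⟩
  obtain ⟨g1, g2, g3, g4⟩ := hk j hj
  have e1 : u * (k + j) = u * k + j * u := by ring
  have e2 : u * (k + j) + a = u * k + a - 1 + j * u + 2 - 1 := by omega
  have hp : p (u * k + a - 1 + j * u + 2) = s + i * D + h j := by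
    unfold p
    rw [← e2, g1]
  have hle := Nat.add_two_le_nth_prime (u * (k + j) + a)
  have hlt : u * k + a - 1 + j * u < 2 * n := by omega
  have hmod : u * k + a - 1 + j * u ≡ n + P u n [MOD u] := by
    have e3 : u * k + a - 1 + j * u + 1 ≡ n + P u n + 1 [MOD u] := by
      have e4 : u * k + a - 1 + j * u + 1 = a + u * (k + j) := by omega
      rw [e4, ha]
      unfold Nat.ModEq
      rw [Nat.add_mul_mod_self_left, Nat.mod_mod]
    exact Nat.ModEq.add_right_cancel' 1 e3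
  obtain ⟨c1, c2⟩ := cop (by omega) hlt hmod
  exact ⟨hlt, c1, c2, hp, by rw [hp]; exact g4⟩

end Pool.Agent.Results.MP_0ec542_nt.ProgressionsOfIndices
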