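import Pool.Agent.R518.C.Ind
import Pool.Agent.V8H35.RO.R4

set_option autoImplicit false

/-!
# Many `2 n` are a prime plus a number `q` with almost prime `p_{q + 2} + 2`

`p_k` is the `k`-th prime. The problem asks, for every `n > 2`, for a prime `q` such that `2 n - q` and
`p_{q + 2} + 2` are prime. Here `2 n - q` IS prime, `q` is in a given class prime to a given `u` (so it has
no prime factor below a given bound) and `p_{q + 2} + 2` has a bounded number of prime factors.
-/

namespace Pool.Agent.Results.MP_0ec542_nt.RomanoffStrings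

open Finset Filter

/-- The `k`-th prime: `p 1 = 2`, `p 2 = 3`, and so on. -/
noncomputable def p (k : ℕ) : ℕ := Nat.nth Nat.Prime (k - 1)

open Classical in
/-- The `n` with `2 < n ≤ x` for which there is a `q < 2 n` with `q ≤ (log x) ^ 2`, `q ≡ b` modulo `u`,
`2 n - q` prime, such that for each of the numbers `q' = q, q + u, ..., q + m u` the number
`p_{q' + 2} + 2` has at most `R` prime factors, counted with multiplicity. -/
noncomputable def Rep (u b m R x : ℕ) : Finset ℕ :=
  (Icc 3 x).filter (fun n => ∃ q : ℕ, q < 2 * n ∧ (q : ℝ) ≤ Real.log x ^ 2 ∧ q ≡ b [MOD u] ∧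
    (2 * n - q).Prime ∧ ∀ i ≤ m, (p (q + i * u + 2) + 2).primeFactorsList.length ≤ R)

/-- the starting points of the strings -/
def G (u b k R : ℕ) : Set ℕ :=
  {a | 3 ≤ a ∧ a ≡ b [MOD u] ∧ ∀ i ≤ k, (p (a + i * u + 2) + 2).primeFactorsList.length ≤ R}

lemma dense (u b l m : ℕ) (hu : 1 ≤ u) : ∃ R B : ℕ, ∃ y0 : ℕ, ∀ y : ℕ, y0 ≤ y →
    ∃ S : Finset ℕ, S ⊆ Icc 1 y ∧ (∀ a ∈ S, a ∈ G u b (l + m) R ∧ a + l * u ≤ y) ∧
      (y : ℝ) ≤ S.card * Real.log y ^ B := by
  classical
  obtain ⟨R, D, x₀, h⟩ := Pool.Agent.R518.C.core u (l + m) hu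
  have h0 : ∀ᶠ y : ℕ in atTop, (4 : ℝ) ≤ y / Real.log y ^ D := by
    have h1 := (Real.isLittleO_pow_log_id_atTop (n := D)).bound (by norm_num : (0 : ℝ) < 1 / 4)
    have h2 := (tendsto_natCast_atTop_atTop (R := ℝ)).eventually h1
    filter_upwards [h2, eventually_ge_atTop 3] with y hy hy3
    have hl : 0 < Real.log y := Real.log_pos (by exact_mod_cast (by omega : 1 < y))
    rw [Real.norm_of_nonneg (by positivity)] at hy
    simp only [id] at hy
    rw [Real.norm_of_nonneg (Nat.cast_nonneg _)] at hy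
    rw [le_div_iff₀ (by positivity)]
    linarith
  have h0' : ∀ᶠ y : ℕ in atTop, (2 : ℝ) ≤ Real.log y :=
    (Real.tendsto_log_atTop.comp tendsto_natCast_atTop_atTop).eventually_ge_atTop 2
  obtain ⟨y1, hy1⟩ := eventually_atTop.1 (h0.and h0')
  refine ⟨R, D + 1, max x₀ y1, fun y hy => ?_⟩
  obtain ⟨h1, h2⟩ := hy1 y ((le_max_right _ _).trans hy)
  have h3 := h y ((le_max_left _ _).trans hy) (b + 2)
  set J := Pool.Agent.R518.C.Js u (l + m) R y (b + 2) with hJ
  have hJm : ∀ j ∈ J, j < y ∧ 3 ≤ j ∧ j ≡ b + 2 [MOD u] ∧ ∀ i ≤ l + m, j + i * u < y ∧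
      ArithmeticFunction.cardFactors (Nat.nth Nat.Prime (j + i * u - 1) + 2) ≤ R := by
    intro j hj
    rw [hJ] at hj
    unfold Pool.Agent.R518.C.Js at hj
    rw [mem_filter, mem_range] at hj
    exact ⟨hj.1, hj.2.1, hj.2.2.1, hj.2.2.2⟩
  have hinj : Set.InjOn (fun j => j - 2) (((J.filter (fun j => 5 ≤ j)) : Finset ℕ) : Set ℕ) := by
    intro x hx y' hy' hxy
    have h4 := (mem_filter.1 (mem_coe.1 hx)).2
    have h5 := (mem_filter.1 (mem_coe.1 hy')).2
    simp only at hxy
    omega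
  have hcard : J.card ≤ (J.filter (fun j => 5 ≤ j)).card + 2 := by
    have h4 : J ⊆ J.filter (fun j => 5 ≤ j) ∪ {3, 4} := by
      intro j hj
      rw [mem_union, mem_filter, mem_insert, mem_singleton]
      have h5 := (hJm j hj).2.1
      by_cases h6 : 5 ≤ j
      · exact Or.inl ⟨hj, h6⟩
      · right
        omega
    refine (card_le_card h4).trans ((card_union_le _ _).trans ?_)
    apply Nat.add_le_add_left
    exact card_le_two
  refine ⟨(J.filter (fun j => 5 ≤ j)).image (fun j => j - 2), ?_, ?_, ?_⟩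
  · intro a ha
    obtain ⟨j, hj, rfl⟩ := mem_image.1 ha
    rw [mem_filter] at hj
    have h4 := hJm j hj.1
    rw [mem_Icc]
    omega
  · intro a ha
    obtain ⟨j, hj, rfl⟩ := mem_image.1 ha
    rw [mem_filter] at hj
    obtain ⟨h4, h5, h6, h7⟩ := hJm j hj.1
    have h8 := hj.2
    refine ⟨⟨by omega, ?_, ?_⟩, ?_⟩
    · have e1 : (j - 2) + 2 ≡ b + 2 [MOD u] := by
        have : j - 2 + 2 = j := by omega
        rw [this]
        exact h6
      exact Nat.ModEq.add_right_cancel' 2 e1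
    · intro i hi
      have h9 := (h7 i hi).2
      unfold p
      have e4 : j - 2 + i * u + 2 - 1 = j + i * u - 1 := by omega
      rw [e4, ← ArithmeticFunction.cardFactors_apply]
      exact h9
    · have h9 := (h7 l (by omega)).1
      omega
  · rw [card_image_of_injOn hinj]
    have hl : 0 < Real.log y := by linarith
    have h4 : (J.card : ℝ) ≤ (J.filter (fun j => 5 ≤ j)).card + 2 := by exact_mod_cast hcard
    have h5 : (y : ℝ) / Real.log y ^ D ≤ 2 * (J.filter (fun j => 5 ≤ j)).card := by linarith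
    rw [div_le_iff₀ (by positivity)] at h5
    calc (y : ℝ) ≤ 2 * (J.filter (fun j => 5 ≤ j)).card * Real.log y ^ D := h5
      _ = (J.filter (fun j => 5 ≤ j)).card * (Real.log y ^ D * 2) := by ring
      _ ≤ (J.filter (fun j => 5 ≤ j)).card * (Real.log y ^ D * Real.log y) := by gcongr
      _ = _ := by ring

lemma choose_l (A K : ℝ) (u : ℕ) (hu : 1 ≤ u) (hA : 0 < A) (hK : 0 ≤ K) : ∃ l : ℕ,
    K ≤ ((l : ℝ) + 1) / (A * Real.log ((2 * l + 3) * u : ℕ)) := by
  have h1 := (Real.isLittleO_log_id_atTop).bound (by positivity : (0 : ℝ) < 1 / (8 * (K * A + 1)))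
  have h2 : Tendsto (fun l : ℕ => 2 * (l : ℝ) + 3) atTop atTop :=
    tendsto_atTop_add_const_right _ _ (tendsto_natCast_atTop_atTop.const_mul_atTop (by norm_num))
  have h3 := h2.eventually h1
  obtain ⟨l, h4, h5⟩ := (h3.and (tendsto_natCast_atTop_atTop.eventually_ge_atTop
    (4 * (K * A) * Real.log u + 3 : ℝ))).exists
  refine ⟨l, ?_⟩
  have hl0 : (0 : ℝ) ≤ l := Nat.cast_nonneg l
  have hu0 : (0 : ℝ) < u := by exact_mod_cast hu
  have hlogu : 0 ≤ Real.log u := Real.log_natCast_nonneg u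
  have hlog : 0 < Real.log (2 * (l : ℝ) + 3) := Real.log_pos (by linarith)
  rw [Real.norm_of_nonneg hlog.le] at h4
  simp only [id] at h4
  rw [Real.norm_of_nonneg (by linarith)] at h4
  have e1 : Real.log (((2 * l + 3) * u : ℕ) : ℝ) = Real.log (2 * (l : ℝ) + 3) + Real.log u := by
    push_cast
    rw [Real.log_mul (by linarith) hu0.ne']
  have hKA : 0 ≤ K * A := by positivity
  have h6 : (K * A) * Real.log (2 * (l : ℝ) + 3) ≤ (2 * l + 3) / 8 := by
    calc (K * A) * Real.log (2 * (l : ℝ) + 3) ≤ (K * A + 1) * Real.log (2 * (l : ℝ) + 3) := by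
          apply mul_le_mul_of_nonneg_right _ hlog.le
          linarith
      _ ≤ (K * A + 1) * (1 / (8 * (K * A + 1)) * (2 * l + 3)) := by gcongr
      _ = (2 * l + 3) / 8 := by field_simp
  rw [e1, le_div_iff₀ (by positivity)]
  have h7 : K * (A * (Real.log (2 * (l : ℝ) + 3) + Real.log u)) =
      (K * A) * Real.log (2 * (l : ℝ) + 3) + (K * A) * Real.log u := by ring
  rw [h7]
  linarith

/-- Let `u` be even, `b` odd, and let `m` and `K` be arbitrary. There is an `R` such that for all large `x` at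
least `K x / log log log log x` of the integers `n`, `2 < n ≤ x`, are in `Rep u b m R x`: there is a `q < 2 n`,
`q ≤ (log x) ^ 2`, `q ≡ b` modulo `u`, for which `2 n - q` is prime and `p_{q' + 2} + 2` has at most `R` prime
factors for each of the numbers `q' = q, q + u, ..., q + m u`. -/
theorem result (u b m K : ℕ) (hu : 1 ≤ u) (hu2 : u % 2 = 0) (hb : b % 2 = 1) :
    ∃ R : ℕ, ∀ᶠ x : ℕ in atTop,
      (K : ℝ) * (x / Real.log (Real.log (Real.log (Real.log x)))) ≤ ((Rep u b m R x).card : ℝ) := by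
  classical
  obtain ⟨A, hA, hst⟩ := Pool.Agent.V8H35.RO.strings
  obtain ⟨l, hl⟩ := choose_l A K u hu hA (Nat.cast_nonneg _)
  obtain ⟨R, B, hd⟩ := dense u b l m hu
  refine ⟨R, ?_⟩
  have hodd : ∀ a ∈ G u b (l + m) R, ∀ i ≤ l, 3 ≤ a + i * u ∧ (a + i * u) % 2 = 1 := by
    rintro a ⟨h1, h2, -⟩ i _
    have h3 : a ≡ b [MOD 2] := h2.of_dvd (Nat.dvd_of_mod_eq_zero hu2)
    have h4 : a % 2 = 1 := by
      unfold Nat.ModEq at h3
      omega
    have h5 : (i * u) % 2 = 0 := by
      rw [Nat.mul_mod, hu2]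
      simp
    constructor
    · omega
    · omega
  obtain ⟨x0, hx0⟩ := hst u l B (G u b (l + m) R) hu hodd hd
  have hlog4 : ∀ᶠ x : ℕ in atTop, 0 ≤ (x : ℝ) / Real.log (Real.log (Real.log (Real.log x))) := by
    have t1 : Tendsto (fun x : ℕ => Real.log (Real.log (Real.log (Real.log (x : ℝ))))) atTop atTop :=
      Real.tendsto_log_atTop.comp (Real.tendsto_log_atTop.comp (Real.tendsto_log_atTop.comp
        (Real.tendsto_log_atTop.comp tendsto_natCast_atTop_atTop)))
    filter_upwards [t1.eventually_ge_atTop 0] with x hx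
    exact div_nonneg (Nat.cast_nonneg _) hx
  filter_upwards [eventually_ge_atTop x0, hlog4] with x hx hx4
  obtain ⟨T, hT1, hT2, hT3⟩ := hx0 x hx
  refine (mul_le_mul_of_nonneg_right hl hx4).trans (hT3.trans ?_)
  apply Nat.cast_le.2
  apply card_le_card
  intro n hn
  obtain ⟨a, ⟨ha1, ha2, ha3⟩, i, hi, hax, q, hq, hqa⟩ := hT2 n hn
  unfold Rep
  rw [mem_filter]
  refine ⟨hT1 hn, a + i * u, ?_, hax, ?_, ?_, ?_⟩
  · have := hq.pos
    omega
  · unfold Nat.ModEq
    rw [Nat.add_mul_mod_self_right]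
    exact ha2
  · have : 2 * n - (a + i * u) = q := by omega
    rw [this]
    exact hq
  · intro j hj
    have h1 := ha3 (i + j) (by omega)
    have h2 : a + i * u + j * u + 2 = a + (i + j) * u + 2 := by ring
    rw [h2]
    exact h1

end Pool.Agent.Results.MP_0ec542_nt.RomanoffStrings
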